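import Pool.Agent.H937.QS.Stm3
import Pool.Agent.H413.RS.Struct

/-! Project QS, task STR3: based cubic algebras. -/

set_option autoImplicit false

open scoped Matrix TensorProduct
open Pool.Agent.H937.QS

universe u

namespace Pool.Agent.H784.QS.STR3

open Pool.Agent.H413.RS (Cub.kA Cub.kB Cub.kC exists_struct exists_struct_gen Tgen Tgen_det)

section ring

variable {S : Type u} [CommRing S]

theorem comm12 (a : Fin 6 → S) : DF3 a 1 * DF3 a 2 = DF3 a 2 * DF3 a 1 := by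
  ext i j
  rw [Matrix.mul_apply, Matrix.mul_apply, Fin.sum_univ_three, Fin.sum_univ_three]
  fin_cases i <;> fin_cases j <;> simp [DF3] <;> ring

theorem comm (a : Fin 6 → S) (i j : Fin 3) : DF3 a i * DF3 a j = DF3 a j * DF3 a i := by
  have h0 : DF3 a 0 = 1 := rfl
  have h12 := comm12 a
  fin_cases i <;> fin_cases j
  · rfl
  · change DF3 a 0 * DF3 a 1 = DF3 a 1 * DF3 a 0
    rw [h0, one_mul, mul_one]
  · change DF3 a 0 * DF3 a 2 = DF3 a 2 * DF3 a 0
    rw [h0, one_mul, mul_one]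
  · change DF3 a 1 * DF3 a 0 = DF3 a 0 * DF3 a 1
    rw [h0, one_mul, mul_one]
  · rfl
  · exact h12
  · change DF3 a 2 * DF3 a 0 = DF3 a 0 * DF3 a 2
    rw [h0, one_mul, mul_one]
  · exact h12.symm
  · rfl

theorem col0 (a : Fin 6 → S) (i m : Fin 3) : DF3 a i m 0 = if m = i then 1 else 0 := by
  fin_cases i <;> fin_cases m <;> rfl

end ring

section field

variable {L : Type u} [Field L]

/-- coordinates are unique -/
theorem coord (N : Matrix (Fin 3) (Fin 3) L) (hN0 : ∀ q, N q 0 = 1) (hdet : N.det ≠ 0)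
    (f : Fin 3 → L) (x y z : L) (h : ∀ q, f q = x + y * N q 1 + z * N q 2) :
    (N⁻¹ *ᵥ f) 1 = y ∧ (N⁻¹ *ᵥ f) 2 = z := by
  have h1 : f = N *ᵥ ![x, y, z] := by
    funext q
    rw [h q, Matrix.mulVec, dotProduct, Fin.sum_univ_three, hN0]
    change x + y * N q 1 + z * N q 2 = 1 * x + N q 1 * y + N q 2 * z
    ring
  have h2 : N⁻¹ *ᵥ f = ![x, y, z] := by
    rw [h1, Matrix.mulVec_mulVec, Matrix.nonsing_inv_mul N (Ne.isUnit hdet), Matrix.one_mulVec]
  rw [h2]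
  exact ⟨rfl, rfl⟩

theorem par3_eq (N : Matrix (Fin 3) (Fin 3) L) (hN0 : ∀ q, N q 0 = 1) (hdet : N.det ≠ 0)
    (a : Fin 6 → L)
    (h11 : ∀ i, N i 1 * N i 1 = Cub.kA a + a 0 * N i 1 + a 1 * N i 2)
    (h12 : ∀ i, N i 1 * N i 2 = Cub.kB a + a 2 * N i 1 + a 3 * N i 2)
    (h22 : ∀ i, N i 2 * N i 2 = Cub.kC a + a 4 * N i 1 + a 5 * N i 2) : par3 N = a := by
  have e11 := coord N hN0 hdet (fun q => N q 1 * N q 1) _ _ _ h11
  have e12 := coord N hN0 hdet (fun q => N q 1 * N q 2) _ _ _ h12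
  have e22 := coord N hN0 hdet (fun q => N q 2 * N q 2) _ _ _ h22
  funext i
  fin_cases i
  · exact e11.1
  · exact e11.2
  · exact e12.1
  · exact e12.2
  · exact e22.1
  · exact e22.2

theorem mul_coord (N : Matrix (Fin 3) (Fin 3) L) (hN0 : ∀ q, N q 0 = 1) (hdet : N.det ≠ 0)
    (q i l : Fin 3) : N q i * N q l = ∑ m, N q m * DF3 (par3 N) i m l := by
  obtain ⟨a, h11, h12, h22⟩ := exists_struct N hN0 hdet
  rw [par3_eq N hN0 hdet a h11 h12 h22, Fin.sum_univ_three, hN0]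
  fin_cases i
  · fin_cases l
    · change N q 0 * N q 0 = 1 * 1 + N q 1 * 0 + N q 2 * 0
      rw [hN0]; ring
    · change N q 0 * N q 1 = 1 * 0 + N q 1 * 1 + N q 2 * 0
      rw [hN0]; ring
    · change N q 0 * N q 2 = 1 * 0 + N q 1 * 0 + N q 2 * 1
      rw [hN0]; ring
  · fin_cases l
    · change N q 1 * N q 0 = 1 * 0 + N q 1 * 1 + N q 2 * 0
      rw [hN0]; ring
    · change N q 1 * N q 1 = 1 * (a 2 * a 1 + a 3 * a 3 - a 0 * a 3 - a 1 * a 5) +
        N q 1 * a 0 + N q 2 * a 1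
      rw [h11 q, Cub.kA]; ring
    · change N q 1 * N q 2 = 1 * (a 1 * a 4 - a 2 * a 3) + N q 1 * a 2 + N q 2 * a 3
      rw [h12 q, Cub.kB]; ring
  · fin_cases l
    · change N q 2 * N q 0 = 1 * 0 + N q 1 * 0 + N q 2 * 1
      rw [hN0]; ring
    · change N q 2 * N q 1 = 1 * (a 1 * a 4 - a 2 * a 3) + N q 1 * a 2 + N q 2 * a 3
      rw [mul_comm (N q 2), h12 q, Cub.kB]; ring
    · change N q 2 * N q 2 = 1 * (a 2 * a 2 + a 3 * a 4 - a 4 * a 0 - a 5 * a 2) +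
        N q 1 * a 4 + N q 2 * a 5
      rw [h22 q, Cub.kC]; ring

end field

theorem Tg3_eq (k : Type u) [Field k] : Tg3 k = Tgen k := by
  ext q i
  fin_cases i <;> rfl

theorem t_STR3 : S_STR3.{u} := by
  refine ⟨fun S _ a => ⟨comm a, col0 a⟩, fun L _ N h0 hd q i l => mul_coord N h0 hd q i l,
    fun k _ => ?_⟩
  rw [Tg3_eq]
  refine ⟨Tgen_det k, ?_⟩
  obtain ⟨a, ha, h11, h12, h22⟩ := exists_struct_gen k
  rw [par3_eq (Tgen k) (fun _ => rfl) (Tgen_det k) a h11 h12 h22]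
  exact ha

end Pool.Agent.H784.QS.STR3
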